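import Pool.Agent.H37.CTN.Stmts
import Pool.Agent.H72.CTL.UMR

/-!
Note. Board `ctn`, row UM3 (helper80): the conductor from Artin-Schreier coordinates on a normal subgroup
-/

set_option autoImplicit false

namespace Pool.CND

open Finset

namespace UM380

open UMRH

theorem psi_all (p : ℕ) [Fact p.Prime] {F : Type} [Field F] [Algebra (ZMod p) F] [Finite F]
    {r : ℕ} (f : (Fin r → F) →ₗ[ZMod p] ZMod p) :
    ∃ a : Fin r → F, ∀ w : Fin r → F, psi p a w = f w := by
  classical
  have hnd := traceForm_nondegenerate (ZMod p) F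
  have h1 : ∀ i : Fin r, ∃ x : F, ∀ y : F,
      Algebra.trace (ZMod p) F (x * y) = f (Pi.single i y) := by
    intro i
    refine ⟨((Algebra.traceForm (ZMod p) F).toDual hnd).symm
      (f.comp (LinearMap.single (ZMod p) (fun _ : Fin r => F) i)), fun y => ?_⟩
    have h2 := LinearMap.BilinForm.toDual_def (B := Algebra.traceForm (ZMod p) F) hnd
      (m := ((Algebra.traceForm (ZMod p) F).toDual hnd).symm
        (f.comp (LinearMap.single (ZMod p) (fun _ : Fin r => F) i))) (n := y)
    rw [LinearEquiv.apply_symm_apply] at h2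
    rw [Algebra.traceForm_apply] at h2
    rw [← h2]
    rfl
  choose a ha using h1
  refine ⟨a, fun w => ?_⟩
  unfold psi
  rw [map_sum]
  have h3 : w = ∑ i, Pi.single i (w i) := (LinearMap.sum_single_apply (fun _ => F) w).symm
  conv_rhs => rw [h3, map_sum]
  exact Finset.sum_congr rfl fun i _ => ha i (w i)

section

variable {G : Type} [Group G] [Fintype G]

theorem sm_split (b : G → ℤ) (W M : Subgroup G) (h : M ≤ W) :
    sm b {g | g ∈ W ∧ g ≠ 1} = sm b {g | g ∈ M ∧ g ≠ 1} + sm b {g | g ∈ W ∧ g ∉ M} := by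
  classical
  unfold sm
  rw [← Finset.sum_union]
  · congr 1
    ext g
    simp only [Finset.mem_filter, Finset.mem_union, Finset.mem_univ, true_and,
      Set.mem_ofPred_eq]
    constructor
    · rintro ⟨h1, h2⟩
      by_cases h3 : g ∈ M
      · exact Or.inl ⟨h3, h2⟩
      · exact Or.inr ⟨h1, h3⟩
    · rintro (⟨h1, h2⟩ | ⟨h1, h2⟩)
      · exact ⟨h h1, h2⟩
      · refine ⟨h1, ?_⟩
        rintro rfl
        exact h2 M.one_mem
  · rw [Finset.disjoint_left]
    intro g h1 h2
    simp only [Finset.mem_filter, Finset.mem_univ, true_and, Set.mem_ofPred_eq] at h1 h2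
    exact h2.2 h1.1

theorem sm_one (b : G → ℤ) (M : Subgroup G) (D : ℤ) (h : ∀ g ∈ M, g ≠ 1 → b g = D) :
    sm b {g | g ∈ M ∧ g ≠ 1} = ((Nat.card M : ℤ) - 1) * D := by
  classical
  have h1 := sm_const D M ⊥ bot_le
  rw [Subgroup.card_bot, Nat.cast_one] at h1
  rw [← h1]
  unfold sm
  refine Finset.sum_congr ?_ ?_
  · ext g
    simp [Subgroup.mem_bot]
  · intro g hg
    simp only [Finset.mem_filter, Finset.mem_univ, true_and, Set.mem_ofPred_eq,
      Subgroup.mem_bot] at hg
    exact h g hg.1 hg.2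

theorem coset_le (b : G → ℤ) (W M : Subgroup G) (h : M ≤ W) (hUM : UM b W) (g : G) (hg : g ∈ W)
    (hgM : g ∉ M) : sm b {x | g⁻¹ * x ∈ M} ≤ sm b {g | g ∈ W ∧ g ∉ M} := by
  classical
  unfold sm
  apply Finset.sum_le_sum_of_subset_of_nonneg
  · intro x hx
    simp only [Finset.mem_filter, Finset.mem_univ, true_and, Set.mem_ofPred_eq] at hx ⊢
    refine ⟨?_, fun hxM => hgM ?_⟩
    · have h1 := W.mul_mem hg (h hx)
      rwa [mul_inv_cancel_left] at h1
    · have h1 := M.mul_mem hxM (M.inv_mem hx)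
      rwa [mul_inv_rev, inv_inv, mul_inv_cancel_left] at h1
  · intro x hx _
    simp only [Finset.mem_filter, Finset.mem_univ, true_and, Set.mem_ofPred_eq] at hx
    have h1 := hUM.pos x hx.1 (fun h2 => hx.2 (h2 ▸ M.one_mem))
    omega

theorem coset_ge (b : G → ℤ) (W M : Subgroup G) (h : M ≤ W) (hUM : UM b W) (g : G) (hg : g ∈ W)
    (hgM : g ∉ M) (D : ℤ) (hb : ∀ x ∈ M, x ≠ 1 → b x = D) (hD : D < b g) :
    (Nat.card M : ℤ) * D ≤ sm b {x | g⁻¹ * x ∈ M} := by
  classical
  rw [sm_coset, ← card_filter M, ← nsmul_eq_mul, ← Finset.sum_const]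
  refine Finset.sum_le_sum fun n hn => ?_
  have hnM : n ∈ M := (Finset.mem_filter.1 hn).2
  have hg1 : g ≠ 1 := fun h2 => hgM (h2 ▸ M.one_mem)
  by_cases hn1 : n = 1
  · rw [hn1, mul_one]
    exact hD.le
  · have hgn : g * n ≠ 1 := by
      intro h2
      apply hgM
      rw [eq_inv_of_mul_eq_one_left h2]
      exact M.inv_mem hnM
    have h3 := hUM.mul g hg n (h hnM) hg1 hn1 hgn
    rw [hb n hnM hn1, min_eq_right hD.le] at h3
    exact h3

end

end UM380

open UMRH UM380 in
theorem um3_thm (hAD1 : S_AD1) (hUMS : S_UMS) (hUMW : S_UMW) (hSUB : S_SUB) : S_UM3 := by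
  classical
  intro p k F L G _ _ _ _ _ _ _ _ f q m D₀ P ρ W M c Z hp hch hf hq hF hm hinj hram hMW hnorm hc
    hc0 hact hD1 hDp hdec hS1 hS2
  have : Fact p.Prime := ⟨hp⟩
  have : CharP L p := charP_of_injective_algebraMap (algebraMap k L).injective p
  have hcF : CharP F p := (algebraMap F k).charP (algebraMap F k).injective p
  have : Finite F := by
    refine Nat.finite_of_card_ne_zero ?_
    rw [hF, hq]
    exact pow_ne_zero _ hp.ne_zero
  let _ : Algebra (ZMod p) F := ZMod.algebra F p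
  obtain ⟨S, hSdef⟩ : ∃ S : ℤ, S = sm (fun g => P.b (ρ g)) {g | g ∈ W ∧ g ∉ M} := ⟨_, rfl⟩
  rw [← hSdef] at hS1 hS2
  -- the depth function
  obtain ⟨W₁, I₁, hW₁, -, -, -⟩ := hSUB k L G P ρ
  have hWW₁ : W ≤ W₁ := fun g hg => by
    have h1 := hram g hg
    rwa [← hW₁] at h1
  have hUM₁ := hUMW k L G P ρ W₁ hinj hW₁
  have hUM : UM (fun g => P.b (ρ g)) W :=
    ⟨fun g hg => hUM₁.pos g (hWW₁ hg), fun g hg => hUM₁.inv g (hWW₁ hg),
      fun g hg g' hg' => hUM₁.mul g (hWW₁ hg) g' (hWW₁ hg')⟩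
  have hUMM : UM (fun g => P.b (ρ g)) M :=
    ⟨fun g hg => hUM.pos g (hMW hg), fun g hg => hUM.inv g (hMW hg),
      fun g hg g' hg' => hUM.mul g (hMW hg) g' (hMW hg')⟩
  have hc1 : c 1 = 0 := by
    have h1 := hc 1 M.one_mem 1 M.one_mem
    rw [mul_one] at h1
    simpa using h1
  have hcinv : ∀ g ∈ M, c g⁻¹ = -c g := by
    intro g hg
    have h1 := hc g hg g⁻¹ (M.inv_mem hg)
    rw [mul_inv_cancel, hc1] at h1
    exact (neg_eq_of_add_eq_zero_right h1.symm).symm
  have hM0 : (0 : ℤ) < Nat.card M := by exact_mod_cast Nat.card_pos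
  -- the subgroups
  let A : (Fin m → F) → Subgroup G := fun a =>
    { carrier := {g | g ∈ M ∧ psi p a (c g) = 0}
      one_mem' := ⟨M.one_mem, by rw [hc1, psi_zero]⟩
      mul_mem' := by
        rintro g g' ⟨hg, hg1⟩ ⟨hg', hg1'⟩
        exact ⟨M.mul_mem hg hg', by rw [hc g hg g' hg', psi_add, hg1, hg1', add_zero]⟩
      inv_mem' := by
        rintro g ⟨hg, hg1⟩
        exact ⟨M.inv_mem hg, by rw [hcinv g hg, psi_neg, hg1, neg_zero]⟩ }
  have hA : ∀ a g, g ∈ A a ↔ g ∈ M ∧ psi p a (c g) = 0 := fun a g => Iff.rfl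
  have hval : ∀ x : ZMod p, algebraMap k L (algebraMap F k (algebraMap (ZMod p) F x)) = 0 →
      x = 0 := by
    intro x h
    exact (map_eq_zero _).1 ((map_eq_zero _).1 ((map_eq_zero _).1 h))
  -- the key step
  have key : ∀ a : Fin m → F, a ≠ 0 → A a ≠ M ∧ ∃ D' : ℤ, (Nat.card M : ℤ) * D' =
      D₀ * Nat.card W - S ∧
      ∀ g ∈ M, g ∉ A a → sm (fun x => P.b (ρ x)) {x | g⁻¹ * x ∈ A a} = Nat.card (A a) * D' := by
    intro a ha
    obtain ⟨Y, hY1, hY2⟩ := as_gen (p := p) hq hF ρ M c Z hact a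
    obtain ⟨g₀, g₁, hg, hg0, hfix, hord, hg1⟩ := hdec a ha
    rw [← hSdef] at hg1
    rw [hSdef] at hg1 ⊢
    refine hAD1 p k L G P ρ W M (A a) Y g₀ g₁ D₀ hp hch hinj hram hMW (fun g => ?_)
      (fun g hg2 => ?_) (hY1.trans hg) hfix hg0 hord hDp hD1 hg1 (by rw [← hSdef]; exact hS1)
    · rw [hA]
      refine and_congr_right fun hgM => ?_
      rw [hY2 g hgM]
      constructor
      · intro h1
        rw [h1, map_zero, map_zero, map_zero, add_zero]
      · intro h1
        exact hval _ (by simpa using h1)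
    · refine ⟨algebraMap F k (algebraMap (ZMod p) F (psi p a (c g))), ?_, hY2 g hg2⟩
      rw [← map_pow, ← map_pow, ZMod.pow_card]
  -- the value
  have ha₀ : (fun _ : Fin m => (1 : F)) ≠ 0 := by
    intro h
    have h1 := congrFun h ⟨0, hm⟩
    exact one_ne_zero h1
  obtain ⟨-, D', hD', -⟩ := key _ ha₀
  have hums := hUMS p f q m F G (fun g => P.b (ρ g)) M c D' hp hf hq hF hm hUMM hc hc0 (by
    intro φ hφ hφ0
    let φ' : (Fin m → F) →+ ZMod p := AddMonoidHom.mk' φ hφ
    obtain ⟨a, ha⟩ := psi_all p (AddMonoidHom.toZModLinearMap p φ')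
    have ha' : ∀ w, psi p a w = φ w := fun w => ha w
    have hane : a ≠ 0 := by
      rintro rfl
      apply hφ0
      funext w
      rw [← ha' w, psi_zero_left]
      rfl
    obtain ⟨h1, D'', h2, h3⟩ := key a hane
    have hDD : D'' = D' := by
      have h4 : (Nat.card M : ℤ) * D'' = Nat.card M * D' := by rw [h2, hD']
      exact mul_left_cancel₀ hM0.ne' h4
    rw [hDD] at h3
    have hex : ∃ g ∈ M, φ (c g) ≠ 0 := by
      by_contra hcon
      push Not at hcon
      apply h1
      apply le_antisymm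
      · intro g hg
        exact ((hA a g).1 hg).1
      · intro g hg
        exact (hA a g).2 ⟨hg, by rw [ha', hcon g hg]⟩
    refine ⟨hex, ?_⟩
    have hcard : Nat.card M = p * Nat.card (A a) := by
      let χ : M →* Multiplicative (ZMod p) :=
        { toFun := fun g => Multiplicative.ofAdd (psi p a (c g))
          map_one' := by
            rw [OneMemClass.coe_one, hc1, psi_zero]
            rfl
          map_mul' := fun g h => by
            rw [Subgroup.coe_mul, hc g g.2 h h.2, psi_add]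
            rfl }
      have hMc : Nat.card (Multiplicative (ZMod p)) = p := by
        rw [Nat.card_congr Multiplicative.toAdd, Nat.card_zmod]
      have hs : Function.Surjective χ := by
        rw [← MonoidHom.range_eq_top]
        have h3 := Subgroup.card_subgroup_dvd_card χ.range
        rw [hMc] at h3
        rcases (Nat.dvd_prime hp).1 h3 with h4 | h4
        · exfalso
          have h5 := Subgroup.eq_bot_of_card_eq _ h4
          obtain ⟨g, hg, hg1⟩ := hex
          have h6 : χ ⟨g, hg⟩ ∈ χ.range := ⟨_, rfl⟩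
          rw [h5, Subgroup.mem_bot] at h6
          rw [← ha'] at hg1
          exact hg1 h6
        · exact Subgroup.eq_top_of_card_eq _ (h4.trans hMc.symm)
      have h1 := card_ker M (A a) χ hs (fun g => by
        rw [hA]
        constructor
        · rintro ⟨h1, h2⟩
          exact ⟨h1, h2⟩
        · rintro ⟨h1, h2⟩
          exact ⟨h1, h2⟩)
      rwa [hMc] at h1
    intro g hg hg1
    have hgA : g ∉ A a := by
      intro h4
      apply hg1
      rw [← ha']
      exact ((hA a g).1 h4).2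
    have h4 := h3 g hg hgA
    have h5 : {x | x ∈ M ∧ φ (c x) = φ (c g)} = {x | g⁻¹ * x ∈ A a} := by
      ext x
      simp only [Set.mem_ofPred_eq]
      rw [hA]
      constructor
      · rintro ⟨hx, hx1⟩
        refine ⟨M.mul_mem (M.inv_mem hg) hx, ?_⟩
        rw [hc _ (M.inv_mem hg) _ hx, hcinv g hg, psi_add, psi_neg, ha', ha', hx1]
        ring
      · rintro ⟨hx, hx1⟩
        have hxM : x ∈ M := by
          have h6 := M.mul_mem hg hx
          rwa [mul_inv_cancel_left] at h6
        refine ⟨hxM, ?_⟩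
        rw [hc _ (M.inv_mem hg) _ hxM, hcinv g hg, psi_add, psi_neg, ha', ha'] at hx1
        linear_combination hx1
    rw [h5, h4, hcard]
    push_cast
    ring)
  obtain ⟨hsurj, hb⟩ := hums
  refine ⟨hsurj, D', ?_, ?_⟩
  · constructor
    · obtain ⟨g, hg, hcg⟩ := hsurj (fun _ => 1)
      have hg1 : g ≠ 1 := by
        rintro rfl
        rw [hc1] at hcg
        exact ha₀ hcg.symm
      exact ⟨g, hMW hg, hg1, hb g hg hg1⟩
    · intro g hg hg1
      by_cases hgM : g ∈ M
      · exact (hb g hgM hg1).le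
      · by_contra hlt
        rw [not_le] at hlt
        have h1 := coset_ge (fun g => P.b (ρ g)) W M hMW hUM g hg hgM D' hb hlt
        have h2 := coset_le (fun g => P.b (ρ g)) W M hMW hUM g hg hgM
        rw [← hSdef] at h2
        rw [hD'] at h1
        linarith
  · have h1 := sm_split (fun g => P.b (ρ g)) W M hMW
    rw [sm_one (fun g => P.b (ρ g)) M D' hb, ← hSdef] at h1
    unfold U
    rw [h1]
    have h2 : (Nat.card W : ℚ) ≠ 0 := by
      have : 0 < Nat.card W := Nat.card_pos
      positivity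
    rw [div_eq_iff h2]
    have h3 : (Nat.card M : ℚ) * D' = D₀ * Nat.card W - S := by exact_mod_cast hD'
    push_cast
    linear_combination h3

end Pool.CND
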